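import Pool.Agent.N557.BP.Stm

/-!
# Project BP (helper557), leaf EXIT: a line which leaves through side `a` hits side `a` (helper262)
-/

set_option autoImplicit false

namespace Pool.Agent.N262.BP

open Complex Set MeasureTheory Filter Topology Pool.Agent.W780.PG Pool.Agent.W780.BB
  Pool.Agent.TH103.BL Pool.Agent.N557.BP

open scoped Real ComplexConjugate

theorem conj_dir_mul (ψ : ℝ) : conj (dir ψ) * dir ψ = 1 := by
  have h := Complex.conj_mul' (dir ψ)
  rw [norm_dir] at h
  simpa using h

/-- a line with the points `a`, `b` strictly on different sides meets the open segment -/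
theorem meet (X a b : ℂ) (ψ : ℝ)
    (h : (conj (dir ψ) * (X - a)).im * (conj (dir ψ) * (X - b)).im < 0) :
    ∃ s : ℝ, X + s • dir ψ ∈ openSegment ℝ a b := by
  obtain ⟨α, hα⟩ : ∃ α, α = (conj (dir ψ) * (X - a)).im := ⟨_, rfl⟩
  obtain ⟨β, hβ⟩ : ∃ β, β = (conj (dir ψ) * (X - b)).im := ⟨_, rfl⟩
  rw [← hα, ← hβ] at h
  have hne : β - α ≠ 0 := by
    intro h0
    have : β = α := by linarith
    rw [this] at h
    nlinarith [mul_self_nonneg α]
  obtain ⟨l, hl⟩ : ∃ l, l = β / (β - α) := ⟨_, rfl⟩
  obtain ⟨μ, hμ⟩ : ∃ μ, μ = -α / (β - α) := ⟨_, rfl⟩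
  have hsum : l + μ = 1 := by rw [hl, hμ]; field_simp; ring
  have h0 : l * α + μ * β = 0 := by rw [hl, hμ]; field_simp; ring
  have hlpos : 0 < l := by
    rw [hl]
    rcases lt_or_gt_of_ne (show α ≠ 0 by rintro rfl; simp at h) with ha | ha
    · have hb : 0 < β := by
        by_contra hb
        push Not at hb
        nlinarith [mul_nonneg_of_nonpos_of_nonpos ha.le hb]
      exact div_pos hb (by linarith)
    · have hb : β < 0 := by
        by_contra hb
        push Not at hb
        nlinarith [mul_nonneg ha.le hb]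
      exact div_pos_of_neg_of_neg hb (by linarith)
  have hμpos : 0 < μ := by
    rw [hμ]
    rcases lt_or_gt_of_ne (show α ≠ 0 by rintro rfl; simp at h) with ha | ha
    · have hb : 0 < β := by
        by_contra hb
        push Not at hb
        nlinarith [mul_nonneg_of_nonpos_of_nonpos ha.le hb]
      exact div_pos (by linarith) (by linarith)
    · have hb : β < 0 := by
        by_contra hb
        push Not at hb
        nlinarith [mul_nonneg ha.le hb]
      exact div_pos_of_neg_of_neg (by linarith) (by linarith)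
  obtain ⟨y, hy⟩ : ∃ y : ℂ, y = l • a + μ • b := ⟨_, rfl⟩
  have hlc : (l : ℂ) + μ = 1 := by exact_mod_cast hsum
  have him : (conj (dir ψ) * (y - X)).im = 0 := by
    have e : conj (dir ψ) * (y - X) =
        -((l : ℂ) * (conj (dir ψ) * (X - a)) + (μ : ℂ) * (conj (dir ψ) * (X - b))) := by
      rw [hy, real_smul, real_smul]
      linear_combination (conj (dir ψ) * X) * hlc
    rw [e, neg_im, add_im, im_ofReal_mul, im_ofReal_mul, ← hα, ← hβ, h0, neg_zero]
  refine ⟨(conj (dir ψ) * (y - X)).re, ?_⟩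
  have e2 : (((conj (dir ψ) * (y - X)).re : ℝ) : ℂ) = conj (dir ψ) * (y - X) := by
    apply Complex.ext
    · simp
    · rw [him]; simp
  have e3 : X + (conj (dir ψ) * (y - X)).re • dir ψ = y := by
    rw [real_smul, e2]
    linear_combination (y - X) * conj_dir_mul ψ
  rw [e3, hy]
  exact ⟨l, μ, hlpos, hμpos, hsum, rfl⟩

theorem t_exit : Pool.Agent.N557.BP.S_Exit := by
  intro n p hp z θ u t O m a hsl hvd
  obtain ⟨s1, hs1⟩ := meet (srcs p z u m) (p a) (p (a + 1)) (angs p θ u m) hvd
  have hs1' : srcs p z u m + s1 • dir (angs p θ u m) ∈ side p a := hs1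
  by_contra hne
  have ha := side_zero hp hs1'
  have hk := side_pos hp hs1' hne
  have hz := side_zero hp (O.hit m)
  rw [sf_ray] at ha hk hz
  have htp := tp_lt O m
  have hle : t m ≤ s1 := by
    by_contra hcon
    push Not at hcon
    have h1 : tp t m < (max s1 (tp t m) + t m) / 2 := by
      have := le_max_right s1 (tp t m)
      linarith [max_lt hcon htp]
    have h2 : (max s1 (tp t m) + t m) / 2 < t m := by
      linarith [max_lt hcon htp]
    have h3 : s1 < (max s1 (tp t m) + t m) / 2 := by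
      have := le_max_left s1 (tp t m)
      linarith [max_lt hcon htp]
    have h4 : 0 < sf p a (srcs p z u m + ((max s1 (tp t m) + t m) / 2) • dir (angs p θ u m)) :=
      ps_in O m h1 h2 a
    rw [sf_ray] at h4
    nlinarith [mul_neg_of_pos_of_neg (sub_pos.2 h3) hsl]
  have h5 : 0 < sf p (u m) (srcs p z u m + ((tp t m + t m) / 2) • dir (angs p θ u m)) :=
    ps_in O m (by linarith) (by linarith) (u m)
  rw [sf_ray] at h5
  have h6 : (tp t m + t m) / 2 < t m := by linarith
  obtain ⟨c, hc⟩ : ∃ c, c = sf p (u m) (srcs p z u m) := ⟨_, rfl⟩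
  obtain ⟨e, he⟩ : ∃ e, e = sl p (u m) (angs p θ u m) := ⟨_, rfl⟩
  obtain ⟨s0, hs0⟩ : ∃ s0, s0 = (tp t m + t m) / 2 := ⟨_, rfl⟩
  rw [← hc, ← he] at hk hz
  rw [← hc, ← he, ← hs0] at h5
  rw [← hs0] at h6
  have h7 : (s1 - t m) * (c + s0 * e) + (t m - s0) * (c + s1 * e) = (s1 - s0) * (c + t m * e) := by
    ring
  rw [hz, mul_zero] at h7
  have h8 : 0 ≤ (s1 - t m) * (c + s0 * e) := mul_nonneg (by linarith) h5.le
  have h9 : 0 < (t m - s0) * (c + s1 * e) := mul_pos (by linarith) hk
  linarith

end Pool.Agent.N262.BP
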